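import Pool.Agent.MP_c130bd_co.RVM.LatP
import Pool.Agent.MP_c130bd_co.RVM.LatR

set_option autoImplicit false

namespace Pool.Agent.Results.MP_c130bd_co.IntegerRelations

open Pool.Agent.RVM

/-- **Mutations and all the integer relations.** Any two sets of `s` points in general position in `ℝ^d` are joined by a chain of such
sets in which the vectors change by mutations of the types `(q, u, w)`; all the types occur. The groups generated by the differences of the primitive
Radon vectors, resp. of the Radon vectors, are determined: this gives all the linear relations and all the congruences between the primitive Radon numbers,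
resp. between the Radon numbers. -/
theorem result (d s : ℕ) (hd : 1 ≤ d) (hs : d + 2 ≤ s) :
    (∀ S S' : Finset (E d), GP S → GP S' → S.card = s → S'.card = s → Relation.ReflTransGen (Step d s) S S') ∧
    (∀ q u w : ℕ, 1 ≤ q → q ≤ d → u + w + d + 1 = s → ∃ S S' : Finset (E d), GP S ∧ GP S' ∧ S.card = s ∧
      S'.card = s ∧ MoveOf d s q u w S S') ∧
    (∀ x : Fin (d / 2 + 1) → ℤ,
      x ∈ AddSubgroup.closure {y : Fin (d / 2 + 1) → ℤ | ∃ S S' : Finset (E d), GP S ∧ GP S' ∧ S.card = s ∧
        S'.card = s ∧ y = fun j : Fin (d / 2 + 1) => (PP S' ((j : ℕ) + 1) : ℤ) - PP S ((j : ℕ) + 1)} ↔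
      ∑ j, x j = 0 ∧ (Odd (s + d) → ∀ j, Even (x j))) ∧
    (2 ≤ d → ∀ x : Fin (s / 2) → ℤ,
      x ∈ AddSubgroup.closure {y : Fin (s / 2) → ℤ | ∃ S S' : Finset (E d), GP S ∧ GP S' ∧ S.card = s ∧
        S'.card = s ∧ y = fun j : Fin (s / 2) => (rr S' ((j : ℕ) + 1) : ℤ) - rr S ((j : ℕ) + 1)} ↔
      ∑ j, x j = 0 ∧ (Odd d → Even s → ∑ j : Fin (s / 2), (-1) ^ (j : ℕ) * x j = 0)) := by
  refine ⟨?_, ?_, ?_, ?_⟩
  · intro S S' hS hS' hc hc'
    exact conn hd hs hS hS' hc hc'
  · intro q u w hq hqd h
    exact occ hd s q u w hq hqd h (by omega)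
  · exact lat_P hd hs
  · exact fun h => lat_R h hs

end Pool.Agent.Results.MP_c130bd_co.IntegerRelations
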