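import Pool.Agent.MP_c130bd_co.RVM.Fin

set_option autoImplicit false

namespace Pool.Agent.Results.MP_c130bd_co.RadonNoGaps

open Pool.Agent.RVM

/-- at most one type number of `I ⊆ {1, …, s / 2}` belongs to `j` -/
theorem sum_tR (s : ℕ) (I : Finset ℕ) (hI : ∀ i ∈ I, 1 ≤ i ∧ i ≤ s / 2) (j : ℕ) :
    0 ≤ ∑ i ∈ I, tR s i j ∧ ∑ i ∈ I, tR s i j ≤ 1 := by
  have h0 : ∀ i ∈ I, 0 ≤ tR s i j := by
    intro i _
    unfold tR
    split_ifs <;> norm_num
  refine ⟨Finset.sum_nonneg h0, ?_⟩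
  by_cases h : ∃ i ∈ I, tR s i j ≠ 0
  · obtain ⟨i, hi, hne⟩ := h
    rw [Finset.sum_eq_single_of_mem i hi]
    · unfold tR
      split_ifs <;> norm_num
    · intro b hb hbi
      have h1 := hI i hi
      have h2 := hI b hb
      unfold tR at hne ⊢
      by_cases h3 : b = j ∨ b + j = s
      · by_cases h4 : i = j ∨ i + j = s
        · exfalso
          omega
        · rw [if_neg h4] at hne
          exact absurd rfl hne
      · rw [if_neg h3]
  · push Not at h
    rw [Finset.sum_eq_zero h]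
    norm_num

/-- **No gaps.** Let `I` be a set of types. The number of the Radon partitions whose type number is in `I` takes every integer
between any two of its values at sets of `s` points in general position in `ℝ^d`. -/
theorem result (d s : ℕ) (hd : 1 ≤ d) (hs : d + 2 ≤ s) (I : Finset ℕ) (hI : ∀ i ∈ I, 1 ≤ i ∧ i ≤ s / 2)
    (S₀ S₁ : Finset (E d)) (hS₀ : GP S₀) (hS₁ : GP S₁) (hc₀ : S₀.card = s) (hc₁ : S₁.card = s) (n : ℕ)
    (h₀ : ∑ i ∈ I, rr S₀ i ≤ n) (h₁ : n ≤ ∑ i ∈ I, rr S₁ i) :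
    ∃ S : Finset (E d), GP S ∧ S.card = s ∧ ∑ i ∈ I, rr S i = n := by
  have key : ∀ S' : Finset (E d), Relation.ReflTransGen (Step d s) S₀ S' →
      ∀ n, ∑ i ∈ I, rr S₀ i ≤ n → n ≤ ∑ i ∈ I, rr S' i →
        ∃ S : Finset (E d), GP S ∧ S.card = s ∧ ∑ i ∈ I, rr S i = n := by
    intro S' h
    induction h with
    | refl => exact fun n h1 h2 => ⟨S₀, hS₀, hc₀, le_antisymm h1 h2⟩
    | tail _ hstep ih =>
      rename_i S₂ S₃ _
      intro n h1 h2
      obtain ⟨_, hG, _, hC, hcase⟩ := hstep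
      have h3 : ∑ i ∈ I, rr S₃ i ≤ ∑ i ∈ I, rr S₂ i + 1 := by
        rcases hcase with ⟨_, h4⟩ | ⟨q, u, w, _, _, _, _, h4⟩
        · have h5 : ∑ i ∈ I, rr S₃ i = ∑ i ∈ I, rr S₂ i := Finset.sum_congr rfl fun i _ => h4 i
          omega
        · have h5 : ((∑ i ∈ I, rr S₃ i : ℕ) : ℤ) = ((∑ i ∈ I, rr S₂ i : ℕ) : ℤ) +
              ∑ i ∈ I, tR s i (q + w) - ∑ i ∈ I, tR s i (q + u) := by
            push_cast
            rw [Finset.sum_congr rfl fun i _ => h4 i, Finset.sum_sub_distrib, Finset.sum_add_distrib]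
          have h6 := (sum_tR s I hI (q + w)).2
          have h7 := (sum_tR s I hI (q + u)).1
          omega
      by_cases h8 : n ≤ ∑ i ∈ I, rr S₂ i
      · exact ih n h1 h8
      · exact ⟨S₃, hG, hC, by omega⟩
  exact key S₁ (conn hd hs hS₀ hS₁ hc₀ hc₁) n h₀ h₁

end Pool.Agent.Results.MP_c130bd_co.RadonNoGaps
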